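import Pool.Agent.H5L.C3
import Pool.Agent.HGW.Comm

/-!
Finitely generated subgroups of groups of homological dimension at most one: commensuration.
-/

namespace Pool.Agent.Results.MP_5c210b_al.Commensurated

/-- Let `G` be a group with `H_n(G, A) = 0` for all `n ≥ 2` and all `A`, and let `B ≤ G` be
finitely generated and nontrivial. If `T ⊆ G` is finite and for every `t ∈ T` the subgroup
`{b ∈ B : t b t⁻¹ ∈ B}` has finite index in `B`, then `B` has finite index in the subgroup
generated by `B` and `T`. If moreover every nontrivial finitely generated subgroup of `B` has a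
proper subgroup of finite index, then the subgroup generated by `B` and `T` is free. -/
theorem result (G : Type) [Group G]
    (hG : ∀ (A : Rep ℤ G) (n : ℕ), 2 ≤ n → Subsingleton (groupHomology A n))
    (B : Subgroup G) (hB : B.FG) (hne : B ≠ ⊥) (T : Finset G)
    (hT : ∀ t ∈ T, (B.comap (MulAut.conj t).toMonoidHom).relIndex B ≠ 0) :
    B.relIndex (B ⊔ Subgroup.closure (T : Set G)) ≠ 0 ∧
      ((∀ L : Subgroup G, L ≤ B → L.FG → L ≠ ⊥ → ∃ K : Subgroup L, K.FiniteIndex ∧ K ≠ ⊤) →
        IsFreeGroup (B ⊔ Subgroup.closure (T : Set G) : Subgroup G)) := by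
  have h1 := H5L.comm_ambient (fun A => hG A 2 le_rfl) hB hne T hT
  exact ⟨h1, HGW.free_of_relIndex (fun A => hG A 2 le_rfl) B _ (hB.sup ⟨T, rfl⟩) h1⟩

end Pool.Agent.Results.MP_5c210b_al.Commensurated
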