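import Mathlib
import Pool.Agent.H5.FreeQuot
import Pool.Agent.H5.Shap

/-!
Let `G` be a group of homological dimension at most one and `H` a finitely generated subgroup.
The finite residual `N` of `H` is perfect and `H/N` is a free group.
-/

namespace Pool.Agent.Results.MP_5c210b_al.FiniteResidualFree

/-- Let `G` be a group with `H_n(G, A) = 0` for all `n ≥ 2` and all `A`, and let `H ≤ G` be
finitely generated. Let `N` be the intersection of all subgroups of finite index of `H`. Then `N`
is perfect and `H/N` is a free group. -/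
theorem result (G : Type) [Group G]
    (hG : ∀ (A : Rep ℤ G) (n : ℕ), 2 ≤ n → Subsingleton (groupHomology A n))
    (H : Subgroup G) (hH : H.FG) :
    ∃ (N : Subgroup H) (_ : N.Normal),
      (∀ g : H, g ∈ N ↔ ∀ K : Subgroup H, K.FiniteIndex → g ∈ K) ∧
      ⁅N, N⁆ = N ∧ IsFreeGroup (H ⧸ N) :=
  H5.finite_residual (H5.homology_subgroup (fun A => hG A 2 le_rfl) H)
    (Group.fg_iff_subgroup_fg H |>.2 hH)

end Pool.Agent.Results.MP_5c210b_al.FiniteResidualFree
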