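import Pool.Agent.HGR.Main
import Pool.Agent.HGR.Core
import Pool.Agent.HGR.Quot4
import Pool.Agent.H5L.T2

/-!
# MP_5c210b_al: groups of homological dimension one, left orders and perfect subgroups

1. For a group `G` of homological dimension at most one the following are equivalent: `G` is
   locally free; `G` is left orderable; every nontrivial finitely generated subgroup of `G` has a
   proper subgroup of finite index (`G` is locally graded); no nontrivial finitely generated
   subgroup of `G` is acyclic.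
2. If `G` is not locally free, it contains a nontrivial finitely generated acyclic subgroup without
   proper subgroups of finite index, without nontrivial homomorphisms to left orderable groups,
   without Kazhdan's property (T) and without commensurated finitely generated subgroups other than
   the two trivial ones.
3. Every group `G` of homological dimension at most one is an extension of an acyclic group, its
   largest perfect subgroup, by a locally free group.
4. All groups of homological dimension at most one are locally free unless there is a nontrivial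
   finitely generated group as in 2, of homological dimension one, all of whose proper normal
   subgroups are locally free.
-/

set_option autoImplicit false

open Pool.Agent

namespace Pool.Agent.Results.MP_5c210b_al.LocallyGraded

/-- `G` has homological dimension at most one: `H_n(G, A) = 0` for all `n ≥ 2` and all modules
`A` over the integral group ring of `G`. -/
def HdLeOne (G : Type) [Group G] : Prop :=
  ∀ (A : Rep ℤ G) (n : ℕ), 2 ≤ n → Subsingleton (groupHomology A n)

/-- Every finitely generated subgroup is free. -/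
def LocallyFree (G : Type) [Group G] : Prop := ∀ H : Subgroup G, H.FG → IsFreeGroup H

/-- There is a linear order on `G` which is invariant under left multiplication. -/
def LeftOrderable (G : Type) [Group G] : Prop :=
  ∃ _ : LinearOrder G, ∀ a b c : G, a < b → c * a < c * b

/-- `L` has a proper subgroup of finite index. -/
def HasIndex (L : Type) [Group L] : Prop := ∃ K : Subgroup L, K.FiniteIndex ∧ K ≠ ⊤

/-- `L` has a nontrivial homomorphism to a left orderable group. -/
def MapsToOrderable (L : Type) [Group L] : Prop :=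
  ∃ (Q : Type) (_ : Group Q), LeftOrderable Q ∧ ∃ f : L →* Q, f ≠ 1

/-- `H_n(L, ℤ) = 0` for all `n ≥ 1`. -/
def Acyclic (L : Type) [Group L] : Prop :=
  ∀ n : ℕ, 1 ≤ n → Subsingleton (groupHomology (Rep.trivial ℤ L ℤ) n)

/-- `B` is commensurated: for all `t` the subgroup of the `b ∈ B` with `t b t⁻¹ ∈ B` has finite
index in `B`. -/
def Commensurated {L : Type} [Group L] (B : Subgroup L) : Prop :=
  ∀ t : L, (B.comap (MulAut.conj t).toMonoidHom).relIndex B ≠ 0

/-- `L` is nontrivial and finitely generated, acyclic and of homological dimension at most one; it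
has no proper subgroup of finite index, no nontrivial homomorphism to a left orderable group, does
not have property (T) and has no finitely generated commensurated subgroups but `1` and `L`. -/
def Bad (L : Type) [Group L] : Prop :=
  Nontrivial L ∧ Group.FG L ∧ HdLeOne L ∧ Acyclic L ∧ ¬ HasIndex L ∧ ¬ MapsToOrderable L ∧
    ¬ H5L.PropertyT L ∧ ∀ B : Subgroup L, B.FG → Commensurated B → B = ⊥ ∨ B = ⊤

/-! ### proofs -/

theorem hd_sub {G : Type} [Group G] (hG : HdLeOne G) (L : Subgroup G) : HdLeOne L :=
  fun A n hn => H5.homology_subgroup (fun B => hG B n hn) L A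

theorem maps_z {L : Type} [Group L] (h : ∃ f : L →* Multiplicative ℤ, f ≠ 1) :
    ∃ (Q : Type) (_ : Group Q) (P : Q → Prop) (f : L →* Q), HGR.IsCone P ∧ f ≠ 1 := by
  obtain ⟨f, hf⟩ := h
  exact ⟨_, _, _, f, HGR.cone_int, hf⟩

/-- main step -/
theorem free_of_local {G : Type} [Group G] (hG : HdLeOne G)
    (h : ∀ L : Subgroup G, L.FG → L ≠ ⊥ → HasIndex L ∨ MapsToOrderable L) : LocallyFree G := by
  have h1 : ∀ L : Subgroup G, L.FG → L ≠ ⊥ →
      ∃ (Q : Type) (_ : Group Q) (P : Q → Prop) (f : L →* Q), HGR.IsCone P ∧ f ≠ 1 := by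
    intro L hL hL1
    rcases h L hL hL1 with h2 | ⟨Q, _, ⟨_, ho⟩, f, hf⟩
    · exact maps_z (HGR.z_of_index (fun A => hd_sub hG L A 2 le_rfl)
        ((Group.fg_iff_subgroup_fg L).2 hL) h2)
    · exact ⟨Q, _, _, f, HGR.cone_of_order ho, hf⟩
  obtain ⟨P, hP⟩ := HGR.burns_hale h1
  intro H hH
  have hP' : H5L.Cone (fun h : H => P (h : G)) := by
    refine ⟨fun a b ha hb => hP.1 _ _ ha hb, ?_, fun a ha => hP.2.2 _ ha⟩
    intro a ha
    exact hP.2.1 _ (fun h => ha (Subtype.ext h))
  exact H5L.free_of_cone hP' (fun A => hd_sub hG H A 2 le_rfl) ((Group.fg_iff_subgroup_fg H).2 hH)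

theorem exists_ne {G : Type} [Group G] {L : Subgroup G} (h : L ≠ ⊥) : ∃ x : L, x ≠ 1 := by
  by_contra hcon
  push Not at hcon
  apply h
  rw [Subgroup.eq_bot_iff_forall]
  intro x hx
  exact congrArg Subtype.val (hcon ⟨x, hx⟩)

/-- nontrivial finitely generated subgroups of locally free groups map onto `ℤ` -/
theorem z_of_free {G : Type} [Group G] (h : LocallyFree G) {L : Subgroup G} (hL : L.FG)
    (hL1 : L ≠ ⊥) : ∃ f : L →* Multiplicative ℤ, f ≠ 1 := by
  have := h L hL
  exact HGR.free_z (exists_ne hL1)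

theorem not_acyclic {L : Type} [Group L] (h : ∃ f : L →* Multiplicative ℤ, f ≠ 1) :
    ¬ Acyclic L := by
  intro h1
  obtain ⟨f, hf⟩ := h
  exact HGR.not_perfect_of_z hf ((HGR.h1_iff L).1 (h1 1 le_rfl))

theorem acyclic_of_perfect {L : Type} [Group L] (hd : HdLeOne L) (hp : commutator L = ⊤) :
    Acyclic L := by
  intro n hn
  rcases Nat.lt_or_ge n 2 with h | h
  · have : n = 1 := by omega
    subst this
    exact (HGR.h1_iff L).2 hp
  · exact hd _ n h

theorem exists_ne_one_of (L : Type) [Group L] (hne : Nontrivial L) : ∃ x : L, x ≠ 1 := by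
  obtain ⟨a, b, hab⟩ := hne
  by_cases ha : a = 1
  · exact ⟨b, fun hb => hab (ha.trans hb.symm)⟩
  · exact ⟨a, ha⟩

theorem bad_of {L : Type} [Group L] (hne : Nontrivial L) (hfg : Group.FG L) (hd : HdLeOne L)
    (h1 : ¬ HasIndex L) (h2 : ¬ MapsToOrderable L) : Bad L := by
  have hperf : commutator L = ⊤ := by
    by_contra hp
    exact h1 (HGR.index_of_not_perfect hfg hp)
  refine ⟨hne, hfg, hd, acyclic_of_perfect hd hperf, h1, h2,
    H5L.not_T (fun A => hd A 2 le_rfl) (exists_ne_one_of L hne), ?_⟩
  intro B hB hc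
  by_cases hB1 : B = ⊥
  · exact Or.inl hB1
  · right
    obtain ⟨T, hT⟩ := Group.fg_def.1 hfg
    have h3 := H5L.comm_ambient (fun A => hd A 2 le_rfl) hB hB1 T (fun t _ => hc t)
    rw [hT, sup_top_eq, Subgroup.relIndex_top_right] at h3
    by_contra hBt
    exact h1 ⟨B, ⟨h3⟩, hBt⟩

/-- the subgroup in a counterexample -/
theorem exists_bad {G : Type} [Group G] (hG : HdLeOne G) (hnot : ¬ LocallyFree G) :
    ∃ L : Subgroup G, Bad L := by
  by_contra hcon
  apply hnot
  apply free_of_local hG
  intro L hL hL1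
  by_contra hno
  rw [not_or] at hno
  obtain ⟨x, hx⟩ := exists_ne hL1
  exact hcon ⟨L, bad_of ⟨x, 1, hx⟩ ((Group.fg_iff_subgroup_fg L).2 hL) (hd_sub hG L) hno.1 hno.2⟩

theorem Bad.perfect {L : Type} [Group L] (h : Bad L) : commutator L = ⊤ :=
  (HGR.h1_iff L).1 (h.2.2.2.1 1 le_rfl)

theorem Bad.ne_bot {G : Type} [Group G] {L : Subgroup G} (h : Bad L) : L ≠ ⊥ := by
  rintro rfl
  have h1 := h.1
  exact not_nontrivial _ h1

/-- the quotient by a perfect normal subgroup -/
theorem hd_quot {G : Type} [Group G] (hG : HdLeOne G) (M : Subgroup G) [M.Normal]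
    (hM : ⁅M, M⁆ = M) : HdLeOne (G ⧸ M) :=
  HGR.hd_quot4 hG M (HGR.perfect_iff.2 hM)

/-- the quotient by the largest perfect subgroup -/
theorem locallyFree_quot {G : Type} [Group G] (hG : HdLeOne G) :
    ∃ (P : Subgroup G) (_ : P.Normal), ⁅P, P⁆ = P ∧ (∀ K : Subgroup G, ⁅K, K⁆ = K → K ≤ P) ∧
      Acyclic P ∧ HdLeOne (G ⧸ P) ∧ LocallyFree (G ⧸ P) := by
  have hN : (HGR.core (⊤ : Subgroup G)).Normal := HGR.core_normal inferInstance
  have hp := HGR.core_perfect (⊤ : Subgroup G)
  have hd := hd_quot hG (HGR.core ⊤) hp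
  refine ⟨HGR.core ⊤, hN, hp, fun K hK => HGR.le_core le_top hK,
    acyclic_of_perfect (hd_sub hG _) (HGR.perfect_iff.2 hp), hd, ?_⟩
  by_contra hnot
  obtain ⟨L, hL⟩ := exists_bad hd hnot
  have h1 : ⁅L, L⁆ = L := HGR.perfect_iff.1 hL.perfect
  have h2 := HGR.le_core le_top (HGR.comap_perfect hp h1)
  apply hL.ne_bot
  rw [eq_bot_iff]
  intro x hx
  obtain ⟨g, rfl⟩ := QuotientGroup.mk'_surjective _ x
  exact Subgroup.mem_bot.2 ((QuotientGroup.eq_one_iff g).2 (h2 hx))

/-- a bad group has a bad quotient whose proper normal subgroups are locally free -/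
theorem exists_minimal {G : Type} [Group G] (h : Bad G) :
    ∃ (M : Subgroup G) (_ : M.Normal), Bad (G ⧸ M) ∧
      ∀ N : Subgroup (G ⧸ M), N.Normal → N ≠ ⊤ → LocallyFree N := by
  obtain ⟨hne, hfg, hd, -, hi, ho, -⟩ := h
  obtain ⟨x, hx⟩ := exists_ne (G := G) (L := ⊤) (by
    intro h1
    obtain ⟨a, b, hab⟩ := hne
    apply hab
    have key : ∀ x : G, x = 1 := fun x => by
      have : x ∈ (⊥ : Subgroup G) := h1 ▸ Subgroup.mem_top x
      exact Subgroup.mem_bot.1 this
    rw [key a, key b])
  obtain ⟨M, hM, hp, hM1, hmax⟩ := HGR.exists_max hfg ⟨(x : G), fun h => hx (Subtype.ext h)⟩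
  have hdQ := hd_quot hd M hp
  have hsurj : Function.Surjective (QuotientGroup.mk' M) := QuotientGroup.mk'_surjective M
  have hbad : Bad (G ⧸ M) := by
    refine bad_of ?_ (QuotientGroup.fg _) hdQ ?_ ?_
    · by_contra hcon
      rw [not_nontrivial_iff_subsingleton] at hcon
      apply hM1
      rw [Subgroup.eq_top_iff']
      intro g
      exact (QuotientGroup.eq_one_iff g).1 (Subsingleton.elim _ _)
    · rintro ⟨K, hK, hK1⟩
      refine hi ⟨K.comap (QuotientGroup.mk' M), ⟨?_⟩, ?_⟩
      · rw [Subgroup.index_comap_of_surjective K hsurj]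
        exact hK.index_ne_zero
      intro htop
      apply hK1
      rw [Subgroup.eq_top_iff']
      intro q
      obtain ⟨g, rfl⟩ := hsurj q
      have : g ∈ K.comap (QuotientGroup.mk' M) := htop ▸ Subgroup.mem_top g
      exact this
    · rintro ⟨Q, _, hQ, f, hf⟩
      refine ho ⟨Q, _, hQ, f.comp (QuotientGroup.mk' M), ?_⟩
      intro h1
      apply hf
      refine MonoidHom.ext fun q => ?_
      obtain ⟨g, rfl⟩ := hsurj q
      exact DFunLike.congr_fun h1 g
  refine ⟨M, hM, hbad, ?_⟩
  intro N hN hN1
  by_contra hnot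
  obtain ⟨K, hK⟩ := exists_bad (hd_sub hdQ N) hnot
  have h1 : ⁅K, K⁆ = K := HGR.perfect_iff.1 hK.perfect
  have h2 : ⁅K.map N.subtype, K.map N.subtype⁆ = K.map N.subtype := by
    rw [← Subgroup.map_commutator, h1]
  have h3 := HGR.comap_perfect hp h2
  have hN' : (N.comap (QuotientGroup.mk' M)).Normal := inferInstance
  have hN'1 : N.comap (QuotientGroup.mk' M) ≠ ⊤ := by
    intro htop
    apply hN1
    rw [Subgroup.eq_top_iff']
    intro q
    obtain ⟨g, rfl⟩ := hsurj q
    have : g ∈ N.comap (QuotientGroup.mk' M) := htop ▸ Subgroup.mem_top g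
    exact this
  have hMN : M ≤ N.comap (QuotientGroup.mk' M) := by
    intro y hy
    have h4 : QuotientGroup.mk' M y = 1 := (QuotientGroup.eq_one_iff y).2 hy
    show QuotientGroup.mk' M y ∈ N
    rw [h4]
    exact N.one_mem
  have hle : (K.map N.subtype).comap (QuotientGroup.mk' M) ≤ N.comap (QuotientGroup.mk' M) := by
    intro y hy
    obtain ⟨z, -, hz⟩ := hy
    show QuotientGroup.mk' M y ∈ N
    rw [← hz]
    exact z.2
  have h5 : HGR.core (N.comap (QuotientGroup.mk' M)) = M := by
    refine hmax _ (HGR.core_normal hN') (HGR.core_perfect _) ?_ (HGR.le_core hMN hp)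
    intro htop
    exact hN'1 (top_le_iff.1 (htop ▸ HGR.core_le _))
  have h6 : (K.map N.subtype).comap (QuotientGroup.mk' M) ≤ M :=
    (HGR.le_core hle h3).trans h5.le
  apply hK.ne_bot
  rw [eq_bot_iff]
  intro y hy
  obtain ⟨g, hg⟩ := hsurj (y : G ⧸ M)
  have h7 : g ∈ (K.map N.subtype).comap (QuotientGroup.mk' M) := by
    show QuotientGroup.mk' M g ∈ K.map N.subtype
    rw [hg]
    exact ⟨y, hy, rfl⟩
  have h8 : QuotientGroup.mk' M g = 1 := (QuotientGroup.eq_one_iff g).2 (h6 h7)
  rw [hg] at h8
  exact Subgroup.mem_bot.2 (Subtype.ext h8)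

theorem not_bad {L : Type} [Group L] (hL : LocallyFree L) : ¬ Bad L := by
  intro h
  have htop : (⊤ : Subgroup L).FG := Group.fg_def.1 h.2.1
  have h1 : (⊤ : Subgroup L) ≠ ⊥ := by
    intro h2
    obtain ⟨a, b, hab⟩ := h.1
    apply hab
    have key : ∀ x : L, x = 1 := fun x => by
      have : x ∈ (⊥ : Subgroup L) := h2 ▸ Subgroup.mem_top x
      exact Subgroup.mem_bot.1 this
    rw [key a, key b]
  obtain ⟨f, hf⟩ := z_of_free hL htop h1
  refine not_acyclic ⟨f.comp (Subgroup.topEquiv (G := L)).symm.toMonoidHom, ?_⟩ h.2.2.2.1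
  intro h2
  apply hf
  refine MonoidHom.ext fun x => ?_
  have h3 := DFunLike.congr_fun h2 (x : L)
  have h4 : (Subgroup.topEquiv (G := L)).symm (x : L) = x := Subtype.ext rfl
  rw [MonoidHom.comp_apply] at h3
  have h5 : (Subgroup.topEquiv (G := L)).symm.toMonoidHom (x : L) = x := h4
  rw [h5] at h3
  exact h3

/-- For every group `G` of homological dimension at most one:

1. `G` is locally free iff it is left orderable, iff every nontrivial finitely generated subgroup
   has a proper subgroup of finite index, iff no nontrivial finitely generated subgroup is acyclic,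
   iff every nontrivial finitely generated subgroup has a proper subgroup of finite index or a
   nontrivial homomorphism to a left orderable group;
2. if `G` is not locally free, it contains a bad subgroup;
3. `G` has a largest perfect subgroup `P`; it is normal and acyclic, and `G / P` has homological
   dimension at most one and is locally free.
4. All groups of homological dimension at most one are locally free iff there is no bad group all
   of whose proper normal subgroups are locally free. -/
theorem result :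
    (∀ (G : Type) [Group G], HdLeOne G →
      (LocallyFree G ↔ LeftOrderable G) ∧
      (LocallyFree G ↔ ∀ L : Subgroup G, L.FG → L ≠ ⊥ → HasIndex L) ∧
      (LocallyFree G ↔ ∀ L : Subgroup G, L.FG → L ≠ ⊥ → ¬ Acyclic L) ∧
      (LocallyFree G ↔ ∀ L : Subgroup G, L.FG → L ≠ ⊥ → HasIndex L ∨ MapsToOrderable L)) ∧
    (∀ (G : Type) [Group G], HdLeOne G → ¬ LocallyFree G → ∃ L : Subgroup G, Bad L) ∧
    (∀ (G : Type) [Group G], HdLeOne G →
      ∃ (P : Subgroup G) (_ : P.Normal), ⁅P, P⁆ = P ∧ (∀ K : Subgroup G, ⁅K, K⁆ = K → K ≤ P) ∧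
        Acyclic P ∧ HdLeOne (G ⧸ P) ∧ LocallyFree (G ⧸ P)) ∧
    ((∀ (G : Type) [Group G], HdLeOne G → LocallyFree G) ↔
      ¬ ∃ (L : Type) (_ : Group L), Bad L ∧
        ∀ N : Subgroup L, N.Normal → N ≠ ⊤ → LocallyFree N) := by
  refine ⟨?_, fun G _ hG hnot => exists_bad hG hnot, fun G _ hG => locallyFree_quot hG, ?_⟩
  · intro G _ hG
    refine ⟨⟨fun h => ?_, fun h => ?_⟩, ⟨fun h L hL hL1 => ?_, fun h => ?_⟩,
      ⟨fun h L hL hL1 => ?_, fun h => ?_⟩, ⟨fun h L hL hL1 => ?_, fun h => ?_⟩⟩
    · obtain ⟨P, hP⟩ := HGR.burns_hale (fun L hL hL1 => maps_z (z_of_free h hL hL1))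
      exact HGR.order_of_cone hP
    · apply free_of_local hG
      intro L hL hL1
      right
      refine ⟨G, _, h, L.subtype, ?_⟩
      intro h1
      obtain ⟨x, hx⟩ := exists_ne hL1
      exact hx (Subtype.ext (DFunLike.congr_fun h1 x))
    · obtain ⟨f, hf⟩ := z_of_free h hL hL1
      exact HGR.index_of_z hf
    · exact free_of_local hG fun L hL hL1 => Or.inl (h L hL hL1)
    · exact not_acyclic (z_of_free h hL hL1)
    · by_contra hnot
      obtain ⟨L, hL⟩ := exists_bad hG hnot
      exact h L ((Group.fg_iff_subgroup_fg L).1 hL.2.1) hL.ne_bot hL.2.2.2.1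
    · obtain ⟨f, hf⟩ := z_of_free h hL hL1
      exact Or.inl (HGR.index_of_z hf)
    · exact free_of_local hG h
  · constructor
    · rintro h ⟨L, _, hL, -⟩
      exact not_bad (h L hL.2.2.1) hL
    · intro h G _ hG
      by_contra hnot
      obtain ⟨L, hL⟩ := exists_bad hG hnot
      obtain ⟨M, hM, h1, h2⟩ := exists_minimal hL
      exact h ⟨_, _, h1, h2⟩

end Pool.Agent.Results.MP_5c210b_al.LocallyGraded
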