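import Mathlib
import Pool.Agent.H5.Shap
import Pool.Agent.H5L.RankDef
import Pool.Agent.H5L.R1

/-!
A finitely generated subgroup of a group of homological dimension at most one is free when its
group ring has a matrix rank function for which nonzero elements have rank bounded away from zero.
-/

namespace Pool.Agent.Results.MP_5c210b_al.RankGap

/-- Let `G` be a group with `H_n(G, A) = 0` for all `n ≥ 2` and all `A`. Let `H` be a finitely
generated subgroup of `G` such that `ℤ[H]` has a real valued Sylvester matrix rank function for
which every nonzero element of `ℤ[H]` has rank at least `c`, for some `c > 0`. Then `H` is a free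
group. -/
theorem result (G : Type) [Group G]
    (hG : ∀ (A : Rep ℤ G) (n : ℕ), 2 ≤ n → Subsingleton (groupHomology A n))
    (H : Subgroup G) (hH : H.FG)
    (ρ : H5L.RankFunction (MonoidAlgebra ℤ H)) (c : ℝ) (hc : 0 < c)
    (hgap : ∀ a : MonoidAlgebra ℤ H, a ≠ 0 → c ≤ ρ.rk (Matrix.of fun (_ _ : Unit) => a)) :
    IsFreeGroup H :=
  H5L.RankFunction.free ρ hc hgap (H5.homology_subgroup (fun A => hG A 2 le_rfl) H)
    (Group.fg_iff_subgroup_fg H |>.2 hH)

end Pool.Agent.Results.MP_5c210b_al.RankGap
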